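import Pool.Agent.Work.MP_ce2d68_du.Interface

set_option autoImplicit false

open Polynomial Filter Topology
open scoped ComplexConjugate

/-! Block `NBAS`: basic facts on irreducible integer polynomials. -/

namespace Pool.Agent.Work.MP_ce2d68_du.h20

open Pool.Agent.Work.MP_ce2d68_st Pool.Agent.Work.MP_ce2d68_du

theorem map_map_rat (P : ℤ[X]) :
    (P.map (Int.castRingHom ℚ)).map (algebraMap ℚ ℂ) = cp P := by
  unfold cp
  rw [Polynomial.map_map]
  congr 1

theorem prim {P : ℤ[X]} (h : IP P) : P.IsPrimitive :=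
  h.1.isPrimitive (by have := h.2; omega)

theorem irr_rat {P : ℤ[X]} (h : IP P) : Irreducible (P.map (Int.castRingHom ℚ)) :=
  (Polynomial.IsPrimitive.Int.irreducible_iff_irreducible_map_cast (prim h)).1 h.1

theorem int_inj : Function.Injective (Int.castRingHom ℂ) := by
  intro a b hab
  simpa using hab

theorem cp_ne {P : ℤ[X]} (h : IP P) : cp P ≠ 0 := by
  unfold cp
  rw [Ne, Polynomial.map_eq_zero_iff int_inj]
  exact h.1.ne_zero

theorem cp_natDegree (P : ℤ[X]) : (cp P).natDegree = P.natDegree :=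
  Polynomial.natDegree_map_eq_of_injective int_inj P

theorem cp_lc (P : ℤ[X]) : (cp P).leadingCoeff = ((P.leadingCoeff : ℤ) : ℂ) := by
  unfold cp
  rw [Polynomial.leadingCoeff_map_of_injective int_inj]
  rfl

theorem cp_nodup {P : ℤ[X]} (h : IP P) : (cp P).roots.Nodup := by
  rw [← map_map_rat]
  exact nodup_roots (irr_rat h).separable.map

theorem rts_val {P : ℤ[X]} (h : IP P) : (rts P).val = (cp P).roots := by
  unfold rts
  rw [Multiset.toFinset_val, Multiset.dedup_eq_self.2 (cp_nodup h)]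

theorem conj_ev (P : ℤ[X]) (z : ℂ) : ev P (conj z) = conj (ev P z) := by
  unfold ev cp
  rw [Polynomial.eval_map, Polynomial.eval_map, Polynomial.eval₂_eq_sum_range,
    Polynomial.eval₂_eq_sum_range, map_sum]
  refine Finset.sum_congr rfl fun i _ => ?_
  simp

theorem mem_rts {P : ℤ[X]} (h : IP P) (z : ℂ) : z ∈ rts P ↔ ev P z = 0 := by
  unfold rts ev
  rw [Multiset.mem_toFinset, Polynomial.mem_roots (cp_ne h)]
  rfl

theorem aev (P : ℤ[X]) (a : ℂ) : aeval a (P.map (Int.castRingHom ℚ)) = ev P a := by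
  unfold ev
  rw [← map_map_rat, Polynomial.eval_map, Polynomial.aeval_def]

theorem dvd_of {P : ℤ[X]} (h : IP P) (Q : ℤ[X]) (a : ℂ) (ha : ev P a = 0) (hQ : ev Q a = 0) :
    P ∣ Q := by
  by_cases hQ0 : Q = 0
  · rw [hQ0]
    exact dvd_zero P
  have h1 : minpoly ℚ a ∣ Q.map (Int.castRingHom ℚ) := minpoly.dvd ℚ a (by rw [aev, hQ])
  have h2 := minpoly.eq_of_irreducible (irr_rat h) (x := a) (by rw [aev, ha])
  have h3 : P.map (Int.castRingHom ℚ) ∣ Q.map (Int.castRingHom ℚ) := by
    rw [← h2] at h1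
    exact (Dvd.intro _ rfl).trans h1
  have h4 : P.map (Int.castRingHom ℚ) ∣ Q.primPart.map (Int.castRingHom ℚ) := by
    have hc : Q.content ≠ 0 := fun hc => hQ0 (Polynomial.content_eq_zero_iff.1 hc)
    have h5 := Q.eq_C_content_mul_primPart
    rw [h5, Polynomial.map_mul, Polynomial.map_C] at h3
    have hu : IsUnit (C ((Int.castRingHom ℚ) Q.content) : ℚ[X]) := by
      rw [Polynomial.isUnit_C]
      exact isUnit_iff_ne_zero.2 (by simpa using hc)
    exact (hu.dvd_mul_left).1 h3
  have h6 : P ∣ Q.primPart :=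
    (Polynomial.IsPrimitive.Int.dvd_iff_map_cast_dvd_map_cast P Q.primPart (prim h)).2 h4
  exact h6.trans Q.primPart_dvd

theorem p_NBAS : Stmt_NBAS := by
  intro P h
  have hv := rts_val h
  have hs : (cp P).Splits := IsAlgClosed.splits _
  refine ⟨?_, ?_, ?_, ?_, mem_rts h, fun Q a ha hQ => dvd_of h Q a ((mem_rts h a).1 ha) hQ⟩
  · have h1 := hs.eq_prod_roots
    rw [cp_lc] at h1
    rw [Finset.prod, hv]
    exact h1
  · rw [Finset.card, hv, ← cp_natDegree P]
    exact hs.natDegree_eq_card_roots.symm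
  · intro a ha
    rw [mem_rts h] at ha ⊢
    rw [conj_ev, ha, map_zero]
  · unfold llc
    apply Real.log_nonneg
    have h1 : (1 : ℤ) ≤ |P.leadingCoeff| :=
      Int.one_le_abs (Polynomial.leadingCoeff_ne_zero.2 h.1.ne_zero)
    exact_mod_cast h1

end Pool.Agent.Work.MP_ce2d68_du.h20
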